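import Pool.Agent.Y979.HT.Prob

/-!
# Anchored thinness fails almost surely in the hyperbolic Poisson-Voronoi graph

For every intensity `lam > 0` and every homogeneous Poisson process of intensity `lam` on the
hyperbolic plane, almost surely the Voronoi graph is nonempty and connected and for every vertex
`x` and every `δ` there is a geodesic triangle with the vertex `x` that is not `δ`-thin.
-/

set_option autoImplicit false

namespace Pool.Agent.Results.MP_c20824_pr.AnchoredThinFails

open MeasureTheory UpperHalfPlane Pool.Agent.Y979.HV Pool.Agent.Y979.HT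

theorem result {Ω : Type*} [MeasurableSpace Ω] (P : Measure Ω) [IsProbabilityMeasure P]
    (lam : ℝ) (hlam : 0 < lam) (Q : Ω → Set ℍ) (hQ : IsPoissonProcess P lam Q) :
    ∀ᵐ ω ∂P, (Q ω).Nonempty ∧ (voronoiGraph (Q ω)).Connected ∧
      ∀ (x : Q ω) (δ : ℝ), ∃ (y z : Q ω) (p : (voronoiGraph (Q ω)).Walk x y)
        (q : (voronoiGraph (Q ω)).Walk y z) (r : (voronoiGraph (Q ω)).Walk z x),
        p.length = (voronoiGraph (Q ω)).dist x y ∧ q.length = (voronoiGraph (Q ω)).dist y z ∧
        r.length = (voronoiGraph (Q ω)).dist z x ∧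
        ¬ ThinTriangle (voronoiGraph (Q ω)) δ p q r := by
  filter_upwards [not_thin hQ hlam] with ω hω
  refine ⟨hω.1, hω.2.1, fun x δ => ?_⟩
  by_contra hcon
  push Not at hcon
  exact hω.2.2 x δ fun y z p q r hp hq hr => hcon y z p q r hp hq hr

end Pool.Agent.Results.MP_c20824_pr.AnchoredThinFails
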